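import Pool.Agent.RHO.Stmts4
import Pool.Agent.Helper92_RHO3.MG1

set_option autoImplicit false

/-!
Row MG5 of table ca1: sums of prefixes.
-/

namespace Pool.Agent.RHO.H85d

open Finset

theorem mg5 : MG5Stmt := by
  intro D L J hL hJ hJL
  have hne : J.Nonempty := Finset.nonempty_iff_ne_empty.2 hJ
  set n := J.max' hne with hn
  have hnJ : n ∈ J := J.max'_mem hne
  have hnL : n ≤ L.length := hJL n hnJ
  have hlen : (L.take n).length = n := by rw [List.length_take]; omega
  have hch : (L.take n).IsChain (· ≠ ·) := hL.take n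
  refine ⟨L.take n, by omega, ?_⟩
  rw [Finset.sum_eq_single n]
  · exact Pool.Agent.RHO.H92d.mg_self _ true hch
  · intro j hj hjn
    have hjle : j ≤ n := J.le_max' j hj
    have hjL : j ≤ L.length := hJL j hj
    apply Pool.Agent.RHO.H92d.mg_long _ true _ hch
    rw [hlen, List.length_take]
    omega
  · intro h
    exact absurd hnJ h

end Pool.Agent.RHO.H85d
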