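import Pool.Agent.RHO.Stmts4
import Pool.Agent.Helper77_RHO3.MG4

set_option autoImplicit false

/-!
Row MG6 of table ca1: good matrices for sums of prefixes.
-/

namespace Pool.Agent.RHO.H85d

open Finset

theorem mg6 (h3 : MG3Stmt) : MG6Stmt := by
  classical
  intro A D t u hu ht
  by_contra hcon
  push Not at hcon
  set N : ℕ := Fintype.card (Fin t → Fin D → Matrix (Fin A) (Fin A) (ZMod 2)) with hN
  have hNpos : 0 < N := Fintype.card_pos
  set bad : List (Fin D) → Finset ℕ → ℕ →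
      Finset (Fin t → Fin D → Matrix (Fin A) (Fin A) (ZMod 2)) :=
    fun L J d => if (∃ y, y.length = d ∧ ∑ j ∈ J, mg true (L.take j) y ≠ 0) then
      univ.filter fun M => evl (xM M) (fun y => ∑ j ∈ J, mg true (L.take j) y) 0 d u = 0
      else ∅ with hbad
  have hb : ∀ L J, ∀ d ∈ range (t + 1), (bad L J d).card * 2 ^ A ≤ t * N := by
    intro L J d hd
    rw [mem_range] at hd
    simp only [hbad]
    split_ifs with hy
    · exact (h3 A D t d (fun y => ∑ j ∈ J, mg true (L.take j) y) u hu (by omega) hy).trans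
        (Nat.mul_le_mul_right _ (by omega))
    · simp
  have hsub : (univ : Finset (Fin t → Fin D → Matrix (Fin A) (Fin A) (ZMod 2))) ⊆
      (Pool.Agent.RHO.H77c.wds D t).biUnion fun L => (range (t + 1)).powerset.biUnion fun J =>
        (range (t + 1)).biUnion fun d => bad L J d := by
    intro M _
    obtain ⟨L, hL, J, hJ, d, hdt, hy, hz⟩ := hcon M
    rw [mem_biUnion]
    refine ⟨L, Pool.Agent.RHO.H77c.mem_wds hL, ?_⟩
    rw [mem_biUnion]
    refine ⟨J, ?_, ?_⟩
    · rw [mem_powerset]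
      intro j hj
      have := hJ j hj
      rw [mem_range]
      omega
    · rw [mem_biUnion]
      refine ⟨d, mem_range.2 (by omega), ?_⟩
      simp only [hbad]
      rw [if_pos hy, mem_filter]
      exact ⟨mem_univ _, hz⟩
  have h1 : N ≤ ∑ L ∈ Pool.Agent.RHO.H77c.wds D t, ∑ J ∈ (range (t + 1)).powerset,
      ∑ d ∈ range (t + 1), (bad L J d).card := by
    rw [hN, ← card_univ]
    refine (card_le_card hsub).trans (card_biUnion_le.trans ?_)
    refine sum_le_sum fun L _ => card_biUnion_le.trans ?_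
    exact sum_le_sum fun J _ => card_biUnion_le
  have h2 : N * 2 ^ A ≤ (D + 1) ^ t * (2 ^ (t + 1) * ((t + 1) * (t * N))) := by
    calc N * 2 ^ A ≤ (∑ L ∈ Pool.Agent.RHO.H77c.wds D t, ∑ J ∈ (range (t + 1)).powerset,
          ∑ d ∈ range (t + 1), (bad L J d).card) * 2 ^ A := Nat.mul_le_mul_right _ h1
      _ = ∑ L ∈ Pool.Agent.RHO.H77c.wds D t, ∑ J ∈ (range (t + 1)).powerset,
          ∑ d ∈ range (t + 1), (bad L J d).card * 2 ^ A := by
          rw [sum_mul]
          refine sum_congr rfl fun L _ => ?_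
          rw [sum_mul]
          exact sum_congr rfl fun J _ => sum_mul _ _ _
      _ ≤ ∑ L ∈ Pool.Agent.RHO.H77c.wds D t, ∑ J ∈ (range (t + 1)).powerset,
          ∑ d ∈ range (t + 1), t * N :=
          sum_le_sum fun L _ => sum_le_sum fun J _ => sum_le_sum fun d hd => hb L J d hd
      _ = (Pool.Agent.RHO.H77c.wds D t).card * (2 ^ (t + 1) * ((t + 1) * (t * N))) := by
          rw [sum_const, sum_const, sum_const, card_powerset, card_range, smul_eq_mul,
            smul_eq_mul, smul_eq_mul]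
      _ ≤ (D + 1) ^ t * (2 ^ (t + 1) * ((t + 1) * (t * N))) :=
          Nat.mul_le_mul_right _ (Pool.Agent.RHO.H77c.card_wds D t)
  have h4 : (t + 1) ^ 2 * 2 ^ (t + 1) * (D + 1) ^ t * N < 2 ^ A * N :=
    Nat.mul_lt_mul_of_pos_right ht hNpos
  have h5 : (D + 1) ^ t * (2 ^ (t + 1) * ((t + 1) * (t * N))) ≤
      (t + 1) ^ 2 * 2 ^ (t + 1) * (D + 1) ^ t * N := by
    have h6 : t * N ≤ (t + 1) * N := Nat.mul_le_mul_right _ (by omega)
    calc (D + 1) ^ t * (2 ^ (t + 1) * ((t + 1) * (t * N)))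
        ≤ (D + 1) ^ t * (2 ^ (t + 1) * ((t + 1) * ((t + 1) * N))) :=
          Nat.mul_le_mul_left _ (Nat.mul_le_mul_left _ (Nat.mul_le_mul_left _ h6))
      _ = (t + 1) ^ 2 * 2 ^ (t + 1) * (D + 1) ^ t * N := by ring
  rw [mul_comm N] at h2
  omega

end Pool.Agent.RHO.H85d
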